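import Pool.Agent.H113Z.Dist.Defs

set_option linter.all false

namespace Pool.Agent.H113Z.Dist
open Filter Topology Set

namespace H166

theorem S2_pow (i : ℕ) (x : ℝ) : (S2 ^ i) x = 2 ^ i * x := by
  induction i generalizing x with
  | zero => simp
  | succ i ih => rw [pow_succ, Equiv.Perm.mul_apply, ih, S2_apply]; ring

theorem S2_pow_inv (i : ℕ) (x : ℝ) : (S2 ^ i)⁻¹ x = x / 2 ^ i := by
  rw [Equiv.Perm.inv_eq_iff_eq, S2_pow]
  field_simp

end H166

open H166

theorem aff : AffStmt := by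
  intro a z ψ φ V Ψ i y p s ha hz hφ hψ hV hΨ hV1 hΨ2 hs hlin
  have ha2 : a * a = 1 := by rcases ha with rfl | rfl <;> norm_num
  have haa : |a| = 1 := by rcases ha with rfl | rfl <;> norm_num
  have h4 : (0:ℝ) < 4 ^ i := by positivity
  have h2 : (0:ℝ) < 2 ^ i := by positivity
  have h42 : (4:ℝ) ^ i = 2 ^ i * 2 ^ i := by rw [← mul_pow]; norm_num
  obtain ⟨q, hq⟩ : ∃ q, q = p + a / s := ⟨_, rfl⟩
  obtain ⟨G, hG⟩ : ∃ G : ℝ → ℝ, G = fun t => q + (y - q) * Real.exp (-(s * t)) := ⟨_, rfl⟩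
  have hzy : z y = (p - y) * s := (hlin y (by simp)).1
  have hqy : (q - y) * s = z y + a := by rw [hzy, hq]; field_simp; ring
  have hGy : ∀ t, 0 ≤ t → |G t - y| ≤ 3 / 2 * t := by
    intro t ht
    have e1 : G t - y = (q - y) * (1 - Real.exp (-(s * t))) := by rw [hG]; ring
    have e2 : 0 ≤ 1 - Real.exp (-(s * t)) := by
      have : Real.exp (-(s * t)) ≤ 1 := Real.exp_le_one_iff.2 (by nlinarith)
      linarith
    have e3 : 1 - Real.exp (-(s * t)) ≤ s * t := by
      have := Real.add_one_le_exp (-(s * t)); linarith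
    have e4 : |q - y| * s ≤ 3 / 2 := by
      have : |q - y| * s = |z y + a| := by rw [← hqy, abs_mul, abs_of_pos hs]
      rw [this]
      have := abs_add_le (z y) a
      have := hz y
      linarith
    rw [e1, abs_mul, abs_of_nonneg e2]
    calc |q - y| * (1 - Real.exp (-(s * t))) ≤ |q - y| * (s * t) :=
          mul_le_mul_of_nonneg_left e3 (abs_nonneg _)
      _ = |q - y| * s * t := by ring
      _ ≤ _ := mul_le_mul_of_nonneg_right e4 ht
  have hGd : ∀ t, HasDerivAt G ((q - G t) * s) t := by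
    intro t
    have h1 : HasDerivAt (fun t => -(s * t)) (-s) t :=
      ((hasDerivAt_id' t).const_mul s).fun_neg.congr_deriv (by ring)
    have h2 := (h1.exp.const_mul (y - q)).const_add q
    rw [hG]
    exact h2.congr_deriv (by ring)
  have hder : ∀ t ∈ Icc (0:ℝ) (4 ^ i), HasDerivAt (fun t => φ (G t) - a * t) 0 t := by
    intro t ht
    have h1 := (hφ (G t)).comp t (hGd t)
    have h2 : z (G t) = (p - G t) * s :=
      (hlin (G t) (by have := hGy t ht.1; have := ht.2; linarith)).1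
    have h3 : (q - G t) * s = a * (1 + a * z (G t)) := by
      rw [mul_add, ← mul_assoc, ha2, h2, hq]; field_simp; ring
    have h5 : 1 + a * z (G t) ≠ 0 := by
      have : |a * z (G t)| ≤ 1 / 2 := by rw [abs_mul, haa, one_mul]; exact hz _
      have := (abs_le.1 this).1
      linarith
    have h6 : HasDerivAt (fun t => a * t) a t := by simpa using (hasDerivAt_id t).const_mul a
    refine (h1.fun_sub h6).congr_deriv ?_
    rw [h3]; field_simp; ring
  have hconst := constant_of_has_deriv_right_zero (f := fun t => φ (G t) - a * t) (a := 0)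
    (b := 4 ^ i) (fun t ht => (hder t ht).continuousAt.continuousWithinAt)
    (fun t ht => (hder t ⟨ht.1, ht.2.le⟩).hasDerivWithinAt) (4 ^ i) ⟨h4.le, le_rfl⟩
  have hG0 : G 0 = y := by rw [hG]; simp
  simp only [hG0, mul_zero, sub_zero] at hconst
  have hL : (φ⁻¹ * tr (a * (4 ^ i : ℕ)) * φ) y = G (4 ^ i) := by
    rw [Equiv.Perm.mul_apply, Equiv.Perm.mul_apply, tr_apply, Equiv.Perm.inv_eq_iff_eq]
    push_cast
    linarith
  rw [hL, Equiv.Perm.mul_apply, Equiv.Perm.mul_apply, Equiv.Perm.mul_apply, S2_pow, S2_pow_inv]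
  obtain ⟨σ, hσ⟩ : ∃ σ, σ = 4 ^ i * s := ⟨_, rfl⟩
  have hzu : ∀ u, |u - y / 2 ^ i| ≤ 4 * 2 ^ i → z u = (p / 2 ^ i - u) * σ := by
    intro u hu
    have h1 : |2 ^ i * u - y| ≤ 4 * 4 ^ i := by
      have : 2 ^ i * u - y = 2 ^ i * (u - y / 2 ^ i) := by field_simp
      rw [this, abs_mul, abs_of_pos h2, h42]
      nlinarith
    have h3 := (hlin _ h1).2
    have e : 2 ^ i * u / 2 ^ i = u := by field_simp
    rw [e] at h3
    rw [h3, hσ]
  have hdz : ∀ u, |u - y / 2 ^ i| < 4 * 2 ^ i → deriv z u = -σ := by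
    intro u hu
    have h1 : z =ᶠ[𝓝 u] fun u => (p / 2 ^ i - u) * σ := by
      have ho : IsOpen {u : ℝ | |u - y / 2 ^ i| < 4 * 2 ^ i} :=
        isOpen_lt (by fun_prop) continuous_const
      filter_upwards [ho.mem_nhds hu] with v hv
      exact hzu v (le_of_lt hv)
    rw [h1.deriv_eq]
    have h3 : HasDerivAt (fun u => (p / 2 ^ i - u) * σ) (-σ) u := by
      simpa using ((hasDerivAt_id u).const_sub (p / 2 ^ i)).mul_const σ
    exact h3.deriv
  have hVy : V (y / 2 ^ i) = y / 2 ^ i + (p / 2 ^ i - y / 2 ^ i) * (1 - Real.exp (-σ)) := by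
    rw [hV, hzu _ (by simp), hdz _ (by simp), neg_neg, ← hψ σ]
    ring
  have hit : ∀ k : ℕ, k ≤ 2 ^ i → (Ψ ^ k) (V (y / 2 ^ i)) = V (y / 2 ^ i) + k * (a * ψ σ) ∧
      |(Ψ ^ k) (V (y / 2 ^ i)) - y / 2 ^ i| ≤ 1 + 2 * k := by
    intro k
    induction k with
    | zero => intro _; simpa using hV1 (y / 2 ^ i)
    | succ k ih =>
      intro hk
      obtain ⟨h1, h3⟩ := ih (by omega)
      have hk' : (k:ℝ) + 1 ≤ 2 ^ i := by exact_mod_cast hk
      rw [pow_succ', Equiv.Perm.mul_apply]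
      constructor
      · rw [hΨ, hdz _ (by linarith), neg_neg, h1]
        push_cast
        ring
      · have h5 := hΨ2 ((Ψ ^ k) (V (y / 2 ^ i)))
        have h6 := abs_sub_le (Ψ ((Ψ ^ k) (V (y / 2 ^ i)))) ((Ψ ^ k) (V (y / 2 ^ i))) (y / 2 ^ i)
        rw [Nat.cast_succ]
        linarith
  rw [(hit (2 ^ i) le_rfl).1, hVy, hG]
  have h7 := hψ σ
  have h8 : (2:ℝ) ^ i * 2 ^ i * ψ σ = (1 - Real.exp (-σ)) / s := by
    rw [← h7, hσ, h42]; field_simp
  have h9 : -(s * 4 ^ i) = -σ := by rw [hσ]; ring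
  simp only [h9]
  push_cast
  have h10 : (2:ℝ) ^ i * (y / 2 ^ i + (p / 2 ^ i - y / 2 ^ i) * (1 - Real.exp (-σ)) +
      2 ^ i * (a * ψ σ)) = y + (p - y) * (1 - Real.exp (-σ)) + a * (2 ^ i * 2 ^ i * ψ σ) := by
    field_simp
  rw [h10, h8, hq]
  field_simp
  ring

end Pool.Agent.H113Z.Dist
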