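import Pool.Agent.H113Z.Dist.Defs

set_option linter.all false

namespace Pool.Agent.H113Z.Dist
open Filter Topology Set Asymptotics

namespace H166

theorem op_mono {f : ℝ → ℝ} {r s : ℝ} (h : OP f r) (hrs : r ≤ s) : OP f s := by
  refine IsBigO.trans h (IsBigO.of_bound 1 ?_)
  filter_upwards [eventually_ge_atTop (1:ℝ)] with y hy
  rw [one_mul, Real.norm_of_nonneg (by positivity), Real.norm_of_nonneg (by positivity)]
  exact Real.rpow_le_rpow_of_exponent_le hy hrs

theorem op_mul {f g : ℝ → ℝ} {r s : ℝ} (hf : OP f r) (hg : OP g s) :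
    OP (fun y => f y * g y) (r + s) := by
  refine (IsBigO.mul hf hg).trans (IsBigO.of_bound 1 ?_)
  filter_upwards [eventually_gt_atTop (0:ℝ)] with y hy
  rw [one_mul, Real.rpow_add hy]

theorem op_add {f g : ℝ → ℝ} {r : ℝ} (hf : OP f r) (hg : OP g r) :
    OP (fun y => f y + g y) r := IsBigO.add hf hg

theorem op_cmul {f : ℝ → ℝ} {r : ℝ} (c : ℝ) (hf : OP f r) : OP (fun y => c * f y) r :=
  IsBigO.const_mul_left hf c

theorem op_bdd {f : ℝ → ℝ} {M : ℝ} (h : ∀ y, |f y| ≤ M) : OP f 0 := by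
  refine IsBigO.of_bound M (Eventually.of_forall fun y => ?_)
  simpa using h y

theorem op_congr {f g : ℝ → ℝ} {r : ℝ} (h : OP f r) (e : ∀ y, g y = f y) : OP g r := by
  have : g = f := funext e
  rw [this]; exact h

theorem op_zero (r : ℝ) : OP (fun _ => 0) r := isBigO_zero _ _

theorem op_le {f g : ℝ → ℝ} {r M : ℝ} (h : OP g r) (e : ∀ y, |f y| ≤ M * |g y|) : OP f r :=
  (IsBigO.of_bound M (Eventually.of_forall fun y => by simpa using e y)).trans h

theorem ders {f0 f1 f2 f3 f4 : ℝ → ℝ} (h0 : ∀ x, HasDerivAt f0 (f1 x) x)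
    (h1 : ∀ x, HasDerivAt f1 (f2 x) x) (h2 : ∀ x, HasDerivAt f2 (f3 x) x)
    (h3 : ∀ x, HasDerivAt f3 (f4 x) x) :
    deriv f0 = f1 ∧ D 2 f0 = f2 ∧ D 3 f0 = f3 ∧ D 4 f0 = f4 := by
  have e0 : deriv f0 = f1 := funext fun x => (h0 x).deriv
  have e1 : deriv f1 = f2 := funext fun x => (h1 x).deriv
  have e2 : deriv f2 = f3 := funext fun x => (h2 x).deriv
  have e3 : deriv f3 = f4 := funext fun x => (h3 x).deriv
  have d2 : D 2 f0 = f2 := by
    rw [D, iteratedDeriv_succ, iteratedDeriv_one, e0, e1]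
  have d3 : D 3 f0 = f3 := by
    rw [D, iteratedDeriv_succ]; rw [D] at d2; rw [d2, e2]
  have d4 : D 4 f0 = f4 := by
    rw [D, iteratedDeriv_succ]; rw [D] at d3; rw [d3, e3]
  exact ⟨e0, d2, d3, d4⟩

theorem hasD {f : ℝ → ℝ} {n : ℕ} (hf : ContDiff ℝ n f) (k : ℕ) (hk : k < n) (x : ℝ) :
    HasDerivAt (D k f) (D (k + 1) f x) x := by
  rw [D, D, iteratedDeriv_succ]
  exact (hf.differentiable_iteratedDeriv k (by exact_mod_cast hk) x).hasDerivAt

noncomputable def psi : ℝ → ℝ := dslope (fun s => 1 - Real.exp (-s)) 0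

theorem psi_eq (s : ℝ) : s * psi s = 1 - Real.exp (-s) := by
  have := sub_smul_dslope (fun s : ℝ => 1 - Real.exp (-s)) 0 s
  simpa [psi] using this

theorem psi_zero : psi 0 = 1 := by
  rw [psi, dslope_same]
  have h : HasDerivAt (fun s : ℝ => 1 - Real.exp (-s)) 1 0 :=
    (((hasDerivAt_id' (0:ℝ)).fun_neg.exp).const_sub 1).congr_deriv (by simp)
  exact h.deriv

theorem psi_analytic (s : ℝ) : AnalyticAt ℝ psi s := by
  have hA : ∀ s : ℝ, AnalyticAt ℝ (fun s : ℝ => 1 - Real.exp (-s)) s := fun s => by fun_prop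
  by_cases hs : s = 0
  · subst hs
    obtain ⟨p, hp⟩ := hA 0
    exact ⟨_, hp.has_fpower_series_dslope_fslope⟩
  · have h1 : AnalyticAt ℝ (fun s : ℝ => (1 - Real.exp (-s)) / s) s :=
      (hA s).div analyticAt_id hs
    refine h1.congr ?_
    filter_upwards [isOpen_ne.mem_nhds hs] with t ht
    rw [← psi_eq t]
    field_simp

theorem psi_contDiff (n : ℕ) : ContDiff ℝ n psi :=
  contDiff_iff_contDiffAt.2 fun s => (psi_analytic s).contDiffAt

theorem psi_bound : ∃ M : ℝ, 1 ≤ M ∧ ∀ k ≤ 4, ∀ s ∈ Icc (-1:ℝ) 1, |D k psi s| ≤ M := by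
  have h : ∀ k : ℕ, ∃ C : ℝ, ∀ s ∈ Icc (-1:ℝ) 1, ‖D k psi s‖ ≤ C := fun k =>
    isCompact_Icc.exists_bound_of_continuousOn
      ((psi_contDiff k).continuous_iteratedDeriv k le_rfl).continuousOn
  choose C hC using h
  refine ⟨1 + ∑ k ∈ Finset.range 5, |C k|, ?_, fun k hk s hs => ?_⟩
  · have : 0 ≤ ∑ k ∈ Finset.range 5, |C k| := Finset.sum_nonneg fun k _ => abs_nonneg _
    linarith
  · have h1 := hC k s hs
    have h2 : |C k| ≤ ∑ k ∈ Finset.range 5, |C k| :=
      Finset.single_le_sum (f := fun k => |C k|) (fun k _ => abs_nonneg _)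
        (Finset.mem_range.2 (by omega))
    have h3 := le_abs_self (C k)
    rw [Real.norm_eq_abs] at h1
    linarith

end H166

open H166

theorem vpsi (hT : ToolStmt) : VPsiStmt := by
  obtain ⟨M, hM1, hM⟩ := psi_bound
  have hM0 : 0 < M := by linarith
  refine ⟨psi, 1 / (4 * M), by positivity, ?_, psi_eq, ?_⟩
  · rw [div_le_div_iff₀ (by positivity) (by norm_num)]; linarith
  intro a z ha hz hs hO
  obtain ⟨ε, hε⟩ : ∃ ε, ε = 1 / (4 * M) := ⟨_, rfl⟩
  rw [← hε] at hs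
  have hεM : ε * M = 1 / 4 := by rw [hε]; field_simp
  have hε0 : 0 < ε := by rw [hε]; positivity
  have hε1 : ε ≤ 1 / 4 := by nlinarith
  have haa : |a| = 1 := by rcases ha with rfl | rfl <;> norm_num
  obtain ⟨o0, o1, o2, o3, o4, o5⟩ := hO
  have hz6 : ContDiff ℝ (6 : ℕ) z := hz
  have dz0 : ∀ x, HasDerivAt z (deriv z x) x := fun x =>
    (hz.differentiable (by norm_num) x).hasDerivAt
  have dz1 : ∀ x, HasDerivAt (deriv z) (D 2 z x) x := fun x => by
    have := hasD hz6 1 (by norm_num) x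
    rwa [D, iteratedDeriv_one] at this
  have dz2 := hasD hz6 2 (by norm_num)
  have dz3 := hasD hz6 3 (by norm_num)
  have dz4 := hasD hz6 4 (by norm_num)
  have hw : ∀ x, -deriv z x ∈ Icc (-1:ℝ) 1 := fun x => by
    have := abs_le.1 (hs x).2.1
    constructor <;> linarith [this.1, this.2]
  obtain ⟨p, hp⟩ : ∃ p : ℕ → ℝ → ℝ, p = fun k x => D k psi (-deriv z x) := ⟨_, rfl⟩
  have hp0 : ∀ x, p 0 x = psi (-deriv z x) := fun x => by rw [hp]; simp
  have dp : ∀ k x, HasDerivAt (p k) (-(p (k + 1) x * D 2 z x)) x := fun k x => by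
    have h := (hasD (psi_contDiff (k + 1)) k (by omega) (-deriv z x)).comp x (dz1 x).fun_neg
    have e : D (k + 1) psi (-deriv z x) * (-D 2 z x) = -(p (k + 1) x * D 2 z x) := by
      rw [hp]; ring
    rw [← e, hp]
    exact h
  have bp : ∀ k ≤ 4, ∀ x, |p k x| ≤ M := fun k hk x => by rw [hp]; exact hM k hk _ (hw x)
  have op : ∀ k ≤ 4, OP (p k) 0 := fun k hk => op_bdd (bp k hk)
  have hq1 : ∀ x, |p 0 x - 1| ≤ M * |deriv z x| := by
    intro x
    have h1 := (convex_Icc (-1:ℝ) 1).norm_image_sub_le_of_norm_deriv_le (f := psi) (C := M)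
      (fun s _ => ((psi_contDiff 1).differentiable (by norm_num)) s)
      (fun s hs => by
        have := hM 1 (by norm_num) s hs
        rwa [D, iteratedDeriv_one] at this)
      (show (0:ℝ) ∈ Icc (-1:ℝ) 1 by constructor <;> norm_num) (hw x)
    rw [psi_zero, ← hp0] at h1
    simpa using h1
  obtain ⟨q1, hq1'⟩ : ∃ q1 : ℝ → ℝ, q1 = fun x => -(p 1 x * D 2 z x) := ⟨_, rfl⟩
  obtain ⟨q2, hq2⟩ : ∃ q2 : ℝ → ℝ, q2 = fun x =>
    p 2 x * (D 2 z x * D 2 z x) + (-1) * (p 1 x * D 3 z x) := ⟨_, rfl⟩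
  obtain ⟨q3, hq3⟩ : ∃ q3 : ℝ → ℝ, q3 = fun x =>
    (-1) * (p 3 x * (D 2 z x * (D 2 z x * D 2 z x))) + 3 * (p 2 x * (D 2 z x * D 3 z x))
      + (-1) * (p 1 x * D 4 z x) := ⟨_, rfl⟩
  obtain ⟨q4, hq4⟩ : ∃ q4 : ℝ → ℝ, q4 = fun x =>
    p 4 x * (D 2 z x * (D 2 z x * (D 2 z x * D 2 z x)))
      + (-6) * (p 3 x * (D 2 z x * (D 2 z x * D 3 z x))) + 3 * (p 2 x * (D 3 z x * D 3 z x))
      + 4 * (p 2 x * (D 2 z x * D 4 z x)) + (-1) * (p 1 x * D 5 z x) := ⟨_, rfl⟩
  have dq0 : ∀ x, HasDerivAt (p 0) (q1 x) x := fun x => by rw [hq1']; exact dp 0 x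
  have dq1 : ∀ x, HasDerivAt q1 (q2 x) x := fun x => by
    rw [hq1', hq2]
    exact ((dp 1 x).fun_mul (dz2 x)).fun_neg.congr_deriv (by norm_num; ring)
  have dq2 : ∀ x, HasDerivAt q2 (q3 x) x := fun x => by
    rw [hq2, hq3]
    exact (((dp 2 x).fun_mul ((dz2 x).fun_mul (dz2 x))).fun_add
      (((dp 1 x).fun_mul (dz3 x)).const_mul (-1))).congr_deriv (by norm_num; ring)
  have dq3 : ∀ x, HasDerivAt q3 (q4 x) x := fun x => by
    rw [hq3, hq4]
    exact (((((dp 3 x).fun_mul ((dz2 x).fun_mul ((dz2 x).fun_mul (dz2 x)))).const_mul (-1)).fun_add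
      (((dp 2 x).fun_mul ((dz2 x).fun_mul (dz3 x))).const_mul 3)).fun_add
      (((dp 1 x).fun_mul (dz4 x)).const_mul (-1))).congr_deriv (by norm_num; ring)
  have oq0 : OP (fun x => p 0 x - 1) (-2) := op_le o1 hq1
  have oq1 : OP q1 (-29 / 10) := by
    rw [hq1']
    exact op_congr (op_cmul (-1) (op_mono (op_mul (op 1 (by norm_num)) o2) (by norm_num)))
      (fun y => by ring)
  have oq2 : OP q2 (-39 / 10) := by
    rw [hq2]
    exact op_add (op_mono (op_mul (op 2 (by norm_num)) (op_mul o2 o2)) (by norm_num))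
      (op_cmul _ (op_mono (op_mul (op 1 (by norm_num)) o3) (by norm_num)))
  have oq3 : OP q3 (-39 / 10) := by
    rw [hq3]
    exact op_add (op_add
      (op_cmul _ (op_mono (op_mul (op 3 (by norm_num)) (op_mul o2 (op_mul o2 o2))) (by norm_num)))
      (op_cmul _ (op_mono (op_mul (op 2 (by norm_num)) (op_mul o2 o3)) (by norm_num))))
      (op_cmul _ (op_mono (op_mul (op 1 (by norm_num)) o4) (by norm_num)))
  have oq4 : OP q4 (-39 / 10) := by
    rw [hq4]
    exact op_add (op_add (op_add (op_add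
      (op_mono (op_mul (op 4 (by norm_num)) (op_mul o2 (op_mul o2 (op_mul o2 o2)))) (by norm_num))
      (op_cmul _ (op_mono (op_mul (op 3 (by norm_num)) (op_mul o2 (op_mul o2 o3))) (by norm_num))))
      (op_cmul _ (op_mono (op_mul (op 2 (by norm_num)) (op_mul o3 o3)) (by norm_num))))
      (op_cmul _ (op_mono (op_mul (op 2 (by norm_num)) (op_mul o2 o4)) (by norm_num))))
      (op_cmul _ (op_mono (op_mul (op 1 (by norm_num)) o5) (by norm_num)))
  have op0 := op 0 (by norm_num)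
  have bq1 : ∀ x, |q1 x| ≤ 1 / 4 := fun x => by
    rw [hq1']
    simp only [abs_neg, abs_mul]
    calc |p 1 x| * |D 2 z x| ≤ M * ε :=
          mul_le_mul (bp 1 (by norm_num) x) (hs x).2.2 (abs_nonneg _) hM0.le
      _ = _ := by rw [mul_comm, hεM]
  have cz1 : ContDiff ℝ 4 (deriv z) := by
    have h5 : ContDiff ℝ (5 + 1) z := by norm_num; exact hz
    exact (contDiff_succ_iff_deriv.1 h5).2.2.of_le (by norm_num)
  have cp : ContDiff ℝ 4 (p 0) := by
    have : p 0 = fun x => psi (-deriv z x) := funext hp0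
    rw [this]
    exact (psi_contDiff 4).comp cz1.neg
  have cz : ContDiff ℝ 4 z := hz.of_le (by norm_num)
  -- derivatives of V
  obtain ⟨v1, v2, v3, v4⟩ := ders (f0 := fun x => x + z x * p 0 x)
    (f1 := fun x => 1 + (deriv z x * p 0 x + z x * q1 x))
    (f2 := fun x => D 2 z x * p 0 x + 2 * (deriv z x * q1 x) + z x * q2 x)
    (f3 := fun x => D 3 z x * p 0 x + 3 * (D 2 z x * q1 x) + 3 * (deriv z x * q2 x) + z x * q3 x)
    (f4 := fun x => D 4 z x * p 0 x + 4 * (D 3 z x * q1 x) + 6 * (D 2 z x * q2 x)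
      + 4 * (deriv z x * q3 x) + z x * q4 x)
    (fun x => (hasDerivAt_id' x).fun_add ((dz0 x).fun_mul (dq0 x)))
    (fun x => ((((dz1 x).fun_mul (dq0 x)).fun_add ((dz0 x).fun_mul (dq1 x))).const_add 1).congr_deriv
      (by ring))
    (fun x => ((((dz2 x).fun_mul (dq0 x)).fun_add (((dz1 x).fun_mul (dq1 x)).const_mul 2)).fun_add
      ((dz0 x).fun_mul (dq2 x))).congr_deriv (by norm_num; ring))
    (fun x => (((((dz3 x).fun_mul (dq0 x)).fun_add (((dz2 x).fun_mul (dq1 x)).const_mul 3)).fun_add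
      (((dz1 x).fun_mul (dq2 x)).const_mul 3)).fun_add
      ((dz0 x).fun_mul (dq3 x))).congr_deriv (by norm_num; ring))
  obtain ⟨w1, w2, w3, w4⟩ := ders (f0 := fun x => x + a * p 0 x)
    (f1 := fun x => 1 + a * q1 x) (f2 := fun x => a * q2 x) (f3 := fun x => a * q3 x)
    (f4 := fun x => a * q4 x)
    (fun x => (hasDerivAt_id' x).fun_add ((dq0 x).const_mul a))
    (fun x => ((dq1 x).const_mul a).const_add 1)
    (fun x => (dq2 x).const_mul a) (fun x => (dq3 x).const_mul a)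
  have bzp : ∀ x, |z x * p 0 x| ≤ 1 / 4 := fun x => by
    rw [abs_mul, ← hεM]
    exact mul_le_mul (hs x).1 (bp 0 (by norm_num) x) (abs_nonneg _) hε0.le
  have bp0 : ∀ x, |a * p 0 x| ≤ 2 := fun x => by
    rw [abs_mul, haa, one_mul]
    have h1 := hq1 x
    have h2 : M * |deriv z x| ≤ M * ε := mul_le_mul_of_nonneg_left (hs x).2.1 hM0.le
    have h3 := abs_le.1 (h1.trans h2)
    rw [abs_le]
    constructor <;> nlinarith [h3.1, h3.2]
  obtain ⟨V, hV, gV⟩ := hT.2.2.2.2.1 (fun x => x + z x * p 0 x)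
    (contDiff_id.add (cz.mul cp)) (fun x => by
      rw [v1]
      have h1 : |deriv z x * p 0 x| ≤ 1 / 4 := by
        rw [abs_mul, ← hεM]
        exact mul_le_mul (hs x).2.1 (bp 0 (by norm_num) x) (abs_nonneg _) hε0.le
      have h2 : |z x * q1 x| ≤ 1 / 4 * (1 / 4) := by
        rw [abs_mul]
        exact mul_le_mul ((hs x).1.trans hε1) (bq1 x) (abs_nonneg _) (by norm_num)
      have h3 := (abs_le.1 h1).1
      have h4 := (abs_le.1 h2).1
      show 1 / 2 ≤ 1 + (deriv z x * p 0 x + z x * q1 x)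
      linarith)
  obtain ⟨Ψ, hΨ, gΨ⟩ := hT.2.2.2.2.1 (fun x => x + a * p 0 x)
    (contDiff_id.add (contDiff_const.mul cp)) (fun x => by
      rw [w1]
      have h1 : |a * q1 x| ≤ 1 / 4 := by rw [abs_mul, haa, one_mul]; exact bq1 x
      have h3 := (abs_le.1 h1).1
      show 1 / 2 ≤ 1 + a * q1 x
      linarith)
  have bV : ∀ x, |V x - x| ≤ 1 := fun x => by
    rw [hV]
    have := bzp x
    simp only [add_sub_cancel_left]
    linarith
  have bΨ : ∀ x, |Ψ x - x| ≤ 2 := fun x => by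
    rw [hΨ]
    simp only [add_sub_cancel_left]
    exact bp0 x
  refine ⟨V, Ψ, fun x => by rw [hV, ← hp0], fun x => by rw [hΨ, ← hp0],
    ⟨⟨gV, ⟨1, bV⟩, ?_, ?_, ?_, ?_⟩, ?_, o2, ?_⟩,
    ⟨⟨gΨ, ⟨2, bΨ⟩, ?_, ?_, ?_, ?_⟩, ?_, op_zero _, ?_⟩, bV, bΨ⟩
  · rw [hV, v1]
    exact op_congr (op_add (op_mono (op_mul o1 op0) (by norm_num))
      (op_mono (op_mul o0 oq1) (by norm_num))) (fun y => by ring)
  · rw [hV, v2]
    exact op_add (op_add (op_mono (op_mul o2 op0) (by norm_num))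
      (op_cmul _ (op_mono (op_mul o1 oq1) (by norm_num)))) (op_mono (op_mul o0 oq2) (by norm_num))
  · rw [hV, v3]
    exact op_add (op_add (op_add (op_mono (op_mul o3 op0) (by norm_num))
      (op_cmul _ (op_mono (op_mul o2 oq1) (by norm_num))))
      (op_cmul _ (op_mono (op_mul o1 oq2) (by norm_num)))) (op_mono (op_mul o0 oq3) (by norm_num))
  · rw [hV, v4]
    exact op_add (op_add (op_add (op_add (op_mono (op_mul o4 op0) (by norm_num))
      (op_cmul _ (op_mono (op_mul o3 oq1) (by norm_num))))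
      (op_cmul _ (op_mono (op_mul o2 oq2) (by norm_num))))
      (op_cmul _ (op_mono (op_mul o1 oq3) (by norm_num)))) (op_mono (op_mul o0 oq4) (by norm_num))
  · rw [hV]
    exact op_congr (op_mono (op_mul o0 op0) (by norm_num)) (fun y => by ring)
  · rw [hV, v2]
    exact op_congr (op_add (op_add (op_mono (op_mul o2 oq0) (by norm_num))
      (op_cmul 2 (op_mono (op_mul o1 oq1) (by norm_num)))) (op_mono (op_mul o0 oq2) (by norm_num)))
      (fun y => by ring)
  · rw [hΨ, w1]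
    exact op_congr (op_cmul a (op_mono oq1 (by norm_num))) (fun y => by ring)
  · rw [hΨ, w2]
    exact op_cmul a (op_mono oq2 (by norm_num))
  · rw [hΨ, w3]
    exact op_cmul a (op_mono oq3 (by norm_num))
  · rw [hΨ, w4]
    exact op_cmul a (op_mono oq4 (by norm_num))
  · rw [hΨ]
    exact op_congr (op_cmul a (op_mono oq0 (by norm_num))) (fun y => by ring)
  · rw [hΨ, w2]
    exact op_congr (op_cmul a (op_mono oq2 (by norm_num))) (fun y => by ring)

end Pool.Agent.H113Z.Dist
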